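import Pool.Agent.K3h80.CR.Mat

set_option autoImplicit false
set_option linter.unusedSectionVars false
set_option linter.unusedSimpArgs false

open scoped InnerProductSpace InnerProduct ENNReal

/-! The parts of a nonzero matrix in the cosets of a locally indicable subgroup. -/

namespace Pool.Agent.K3h80.CR

open Pool.Agent.W649.ZL

universe u v w z

section
variable {G : Type u} {I : Type v} {J : Type w} [Group G] [Fintype I] [Fintype J]

theorem vd_ker_add_le (T : EE G J →L[ℂ] EE G I) (hT : Eqv T) (S : Finset J)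
    (h : ∀ f ∈ cosub G S, T f = 0 → f = 0) :
    vd (LinearMap.ker (T : EE G J →ₗ[ℂ] EE G I)) + S.card ≤ Fintype.card J := by
  have h1 := rank_nullity T hT (cosub_inv (G := G) S) (cosub_closed (G := G) S)
  rw [vd_cosub] at h1
  have h2 : cosub G S ⊓ LinearMap.ker (T : EE G J →ₗ[ℂ] EE G I) = ⊥ := by
    rw [eq_bot_iff]
    rintro f ⟨hf1, hf2⟩
    exact h f hf1 hf2
  rw [h2, vd_bot, zero_add] at h1
  have h3 : vd ((cosub G S).map (T : EE G J →ₗ[ℂ] EE G I))
      ≤ vd (LinearMap.range (T : EE G J →ₗ[ℂ] EE G I)) := vd_mono LinearMap.map_le_range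
  have h4 := ker_add_range T hT
  linarith

end

section
variable {G : Type u} {K : Type v} {L : Type w} {J : Type z} [Group G] [Fintype K] [Fintype L]
  [Fintype J] [DecidableEq K] [DecidableEq L] [DecidableEq J]

theorem memlp_row (i : K) (F : EE G K) : Memℓp (fun x : G × Unit => F (x.1, i)) 2 := by
  rw [memlp_two_iff]
  have h1 := (memlp_two_iff _).1 F.2
  exact h1.comp_injective (i := fun x : G × Unit => ((x.1, i) : G × K)) (by
    rintro ⟨a, ⟨⟩⟩ ⟨b, ⟨⟩⟩ hh
    simp only [Prod.mk.injEq, and_true] at hh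
    rw [hh])

/-- the `i`-th coordinate -/
noncomputable def row (i : K) (F : EE G K) : EE G Unit := ⟨fun x => F (x.1, i), memlp_row i F⟩

theorem row_apply (i : K) (F : EE G K) (x : G) : row i F (x, ()) = F (x, i) := rfl

/-- the inverted element -/
noncomputable def iv (a : G →₀ ℂ) : G →₀ ℂ := a.equivMapDomain (Equiv.inv G)

theorem iv_apply (a : G →₀ ℂ) (x : G) : iv a x = a x⁻¹ := by
  unfold iv
  rw [Finsupp.equivMapDomain_apply]
  rfl

theorem cop_iv (a : G →₀ ℂ) (T : Finset G) (hT : a.support ⊆ T) (f : EE G Unit) (x : G) :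
    cop (iv a) f (x, ()) = ∑ t ∈ T, a t * f (t * x, ()) := by
  classical
  rw [cop_apply]
  have h1 : (iv a).support ⊆ T.map (Equiv.inv G).toEmbedding := by
    intro y hy
    rw [Finsupp.mem_support_iff, iv_apply] at hy
    rw [Finset.mem_map]
    exact ⟨y⁻¹, hT (Finsupp.mem_support_iff.2 hy), inv_inv y⟩
  rw [Finset.sum_subset h1]
  · rw [Finset.sum_map]
    refine Finset.sum_congr rfl fun t _ => ?_
    change iv a t⁻¹ * f (t⁻¹⁻¹ * x, ()) = _
    rw [iv_apply, inv_inv]
  · intro y _ hy
    rw [Finsupp.notMem_support_iff.1 hy, zero_mul]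

theorem row_inj (H : Subgroup G) (hH : LI H) (y : J → G) (A : K → L → (G →₀ ℂ)) (T : Finset G)
    (hT : ∀ k l, (A k l).support ⊆ T) (i : K) (l : L) (j : J) (hne : pcs H y A i (l, j) ≠ 0)
    (F : EE G K) (hF0 : F ∈ cosub G ({i} : Finset K)) (hF : opM T (pcs H y A) F = 0) : F = 0 := by
  classical
  have h1 : cop (iv (pcs H y A i (l, j))) (row i F) = 0 := by
    ext ⟨u, ⟨⟩⟩
    rw [cop_iv _ T (pcs_support H y A T hT i (l, j))]
    have h2 := opM_apply T (pcs H y A) F u (l, j)
    rw [hF] at h2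
    have h3 : (0 : EE G (L × J)) (u, (l, j)) = 0 := rfl
    rw [h3] at h2
    rw [show ((0 : EE G Unit) (u, ())) = 0 from rfl, h2]
    refine Finset.sum_congr rfl fun t _ => ?_
    rw [Finset.sum_eq_single i]
    · rfl
    · intro k _ hk
      rw [hF0 (t * u) k (by rw [Finset.mem_singleton]; exact hk), mul_zero]
    · intro h; exact absurd (Finset.mem_univ _) h
  have h4 : Function.Injective (cop (iv (pcs H y A i (l, j)))) := by
    apply LI_coset_injective (y j)⁻¹ H hH
    · intro x hx
      rw [Finsupp.mem_support_iff, iv_apply] at hx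
      have h5 : x⁻¹ * (y j)⁻¹ ∈ H := by
        by_contra hc
        exact hx (pcs_notMem H y A i l j hc)
      have h6 := H.inv_mem h5
      rw [mul_inv_rev, inv_inv, inv_inv] at h6
      rw [inv_inv]
      exact h6
    · intro h0
      apply hne
      ext x
      have := congrArg (fun a : G →₀ ℂ => a x⁻¹) h0
      simp only [iv_apply, inv_inv] at this
      exact this
  have h7 : row i F = 0 := h4 (by rw [h1, map_zero])
  ext ⟨u, k⟩
  by_cases hk : k = i
  · subst hk
    have := congrArg (fun f : EE G Unit => f (u, ())) h7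
    exact this
  · exact hF0 u k (by rw [Finset.mem_singleton]; exact hk)

end

section
variable {G : Type u} {K : Type v} {L : Type w} [Group G] [Fintype K] [Fintype L]
  [DecidableEq K] [DecidableEq L]

/-- the joint kernel of the parts of a nonzero matrix -/
theorem pset_le (H : Subgroup G) (hH : LI H) (A : K → L → (G →₀ ℂ)) (i : K) (l : L)
    (hne : A i l ≠ 0) : dimS (pset H A) ≤ Fintype.card K - 1 := by
  classical
  set T : Finset G := Finset.univ.biUnion (fun k : K => Finset.univ.biUnion fun l : L =>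
    (A k l).support) with hTd
  have hT : ∀ k l, (A k l).support ⊆ T := by
    intro k l h hh
    rw [hTd, Finset.mem_biUnion]
    refine ⟨k, Finset.mem_univ _, ?_⟩
    rw [Finset.mem_biUnion]
    exact ⟨l, Finset.mem_univ _, hh⟩
  have hs : ∀ k l, ∀ h ∈ (A k l).support, ∃ j : T, h * (j : G)⁻¹ ∈ H := by
    intro k l h hh
    refine ⟨⟨h, hT k l hh⟩, ?_⟩
    rw [mul_inv_cancel]
    exact H.one_mem
  rw [pset_eq H (fun j : T => (j : G)) A hs, ← kerDimM_dimS,
    kerDimM_opM T _ (pcs_support H _ A T hT)]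
  obtain ⟨h, hh⟩ := Finsupp.support_nonempty_iff.2 hne
  set j : T := ⟨h, hT i l hh⟩ with hj
  have hp : pcs H (fun j : T => (j : G)) A i (l, j) ≠ 0 := by
    intro h0
    have h1 : pcs H (fun j : T => (j : G)) A i (l, j) h = A i l h :=
      pcs_mem H (fun j : T => (j : G)) A i l j (by
        change h * h⁻¹ ∈ H
        rw [mul_inv_cancel]; exact H.one_mem)
    rw [h0] at h1
    exact Finsupp.mem_support_iff.1 hh h1.symm
  have h2 := vd_ker_add_le (opM T (pcs H (fun j : T => (j : G)) A)) (opM_eqv _ _) ({i} : Finset K)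
    (fun f hf hf0 => row_inj H hH _ A T hT i l j hp f hf hf0)
  rw [Finset.card_singleton] at h2
  push_cast at h2
  linarith

/-- the kernel dimension of a nonzero matrix -/
theorem kerDim_le (H : Subgroup G) (hH : LI H) (Y : Finset G) (A : K → L → (G →₀ ℂ))
    (hs : ∀ k l, ∀ h ∈ (A k l).support, ∃ y ∈ Y, h * y⁻¹ ∈ H) (i : K) (l : L)
    (hne : A i l ≠ 0) : dimS (kernM A) ≤ Fintype.card K - 1 / Y.card := by
  have h1 := pset_rank H Y A hs
  have h2 := pset_le H hH A i l hne
  obtain ⟨h, hh⟩ := Finsupp.support_nonempty_iff.2 hne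
  obtain ⟨y, hy, _⟩ := hs i l h hh
  have hpos : (0 : ℝ) < Y.card := by
    exact_mod_cast Finset.card_pos.2 ⟨y, hy⟩
  have h3 : 1 ≤ (Y.card : ℝ) * (Fintype.card K - dimS (kernM A)) := by linarith
  have h4 : 1 / (Y.card : ℝ) ≤ Fintype.card K - dimS (kernM A) := by
    rw [div_le_iff₀ hpos]
    linarith
  linarith

end

end Pool.Agent.K3h80.CR
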