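import Pool.Agent.K3h80.CR.Op
import Pool.Agent.W649.ZL.Supp

set_option autoImplicit false
set_option linter.unusedSectionVars false
set_option linter.unusedSimpArgs false

open scoped InnerProductSpace InnerProduct ENNReal

/-! Matrices over the group algebra, split along the right cosets of a subgroup. -/

namespace Pool.Agent.K3h80.CR

open Pool.Agent.W649.ZL

universe u v w z

section
variable {G : Type u} {K : Type v} {L : Type w} [Group G] [Fintype K] [Fintype L]
  [DecidableEq K] [DecidableEq L]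

/-- the operator of a matrix with entries supported in `T` -/
noncomputable def opM (T : Finset G) (A : K → L → (G →₀ ℂ)) : EE G K →L[ℂ] EE G L :=
  lin (famR (fun i : T × K × L => (i.1 : G)) (fun i => i.2.1) (fun i => i.2.2)) (coefT T A)

theorem opM_eqv (T : Finset G) (A : K → L → (G →₀ ℂ)) : Eqv (opM T A) :=
  lin_eqv _ (famR_eqv _ _ _) _

theorem opM_apply (T : Finset G) (A : K → L → (G →₀ ℂ)) (F : EE G K) (u : G) (l : L) :
    opM T A F (u, l) = ∑ t ∈ T, ∑ k : K, A k l t * F (t * u, k) := by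
  unfold opM
  rw [lin_famR_apply, Fintype.sum_prod_type,
    ← Finset.sum_coe_sort T (fun t => ∑ k : K, A k l t * F (t * u, k))]
  refine Finset.sum_congr rfl fun t _ => ?_
  rw [Fintype.sum_prod_type]
  refine Finset.sum_congr rfl fun k _ => ?_
  rw [Finset.sum_eq_single l]
  · rw [if_pos rfl]; rfl
  · intro l' _ hl'
    rw [if_neg (fun h => hl' h.symm), mul_zero]
  · intro h; exact absurd (Finset.mem_univ _) h

theorem kerDimM_opM (T : Finset G) (A : K → L → (G →₀ ℂ)) (hT : ∀ k j, (A k j).support ⊆ T) :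
    kerDimM A = vd (LinearMap.ker (opM T A : EE G K →ₗ[ℂ] EE G L)) := by
  conv_lhs => rw [← matM_coefT T A hT]
  rw [kerDimM_eq]
  rfl

theorem rank_opM (T : Finset G) (A : K → L → (G →₀ ℂ)) (hT : ∀ k j, (A k j).support ⊆ T) :
    (Fintype.card K : ℝ) - kerDimM A
      = vd (LinearMap.range (opM T A : EE G K →ₗ[ℂ] EE G L)) := by
  rw [kerDimM_opM T A hT]
  have := ker_add_range (opM T A) (opM_eqv T A)
  linarith

end

section
variable {G : Type u} {K : Type v} {L : Type w} {J : Type z} [Group G] [Fintype K] [Fintype L]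
  [Fintype J] [DecidableEq K] [DecidableEq L] [DecidableEq J]

open Classical in
/-- the matrix of the parts of `A` in the right cosets `H y_j` -/
noncomputable def pcs (H : Subgroup G) (y : J → G) (A : K → L → (G →₀ ℂ)) :
    K → L × J → (G →₀ ℂ) :=
  fun k lj => (A k lj.1).filter (fun h => h * (y lj.2)⁻¹ ∈ H)

theorem pcs_mem (H : Subgroup G) (y : J → G) (A : K → L → (G →₀ ℂ)) (k : K) (l : L) (j : J)
    {h : G} (hh : h * (y j)⁻¹ ∈ H) : pcs H y A k (l, j) h = A k l h := by
  classical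
  unfold pcs
  exact Finsupp.filter_apply_pos (fun h => h * (y j)⁻¹ ∈ H) _ hh

theorem pcs_notMem (H : Subgroup G) (y : J → G) (A : K → L → (G →₀ ℂ)) (k : K) (l : L) (j : J)
    {h : G} (hh : ¬ h * (y j)⁻¹ ∈ H) : pcs H y A k (l, j) h = 0 := by
  classical
  unfold pcs
  exact Finsupp.filter_apply_neg (fun h => h * (y j)⁻¹ ∈ H) _ hh

theorem pcs_sum (H : Subgroup G) (y : J → G) (hy : ∀ i j, y i * (y j)⁻¹ ∈ H → i = j)
    (A : K → L → (G →₀ ℂ)) (hs : ∀ k l, ∀ h ∈ (A k l).support, ∃ j, h * (y j)⁻¹ ∈ H)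
    (k : K) (l : L) (h : G) : ∑ j, pcs H y A k (l, j) h = A k l h := by
  by_cases h0 : A k l h = 0
  · rw [h0]
    refine Finset.sum_eq_zero fun j _ => ?_
    by_cases hj : h * (y j)⁻¹ ∈ H
    · rw [pcs_mem _ _ _ _ _ _ hj, h0]
    · exact pcs_notMem _ _ _ _ _ _ hj
  · obtain ⟨j, hj⟩ := hs k l h (Finsupp.mem_support_iff.2 h0)
    rw [Finset.sum_eq_single j]
    · exact pcs_mem _ _ _ _ _ _ hj
    · intro i _ hi
      apply pcs_notMem
      intro hi'
      apply hi
      apply hy
      have h1 := H.mul_mem (H.inv_mem hi') hj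
      rw [mul_inv_rev, inv_inv] at h1
      have h2 : y i * h⁻¹ * (h * (y j)⁻¹) = y i * (y j)⁻¹ := by group
      rwa [h2] at h1
    · intro h; exact absurd (Finset.mem_univ _) h

theorem pcs_support (H : Subgroup G) (y : J → G) (A : K → L → (G →₀ ℂ)) (T : Finset G)
    (hT : ∀ k l, (A k l).support ⊆ T) (k : K) (lj : L × J) :
    (pcs H y A k lj).support ⊆ T := by
  intro h hh
  obtain ⟨l, j⟩ := lj
  apply hT k l
  rw [Finsupp.mem_support_iff] at hh ⊢
  intro h0
  apply hh
  by_cases hj : h * (y j)⁻¹ ∈ H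
  · rw [pcs_mem _ _ _ _ _ _ hj, h0]
  · exact pcs_notMem _ _ _ _ _ _ hj

/-- **The rank of a matrix is at least the joint rank of its parts divided by their number.** -/
theorem pcs_rank (H : Subgroup G) (y : J → G) (hy : ∀ i j, y i * (y j)⁻¹ ∈ H → i = j)
    (A : K → L → (G →₀ ℂ)) (hs : ∀ k l, ∀ h ∈ (A k l).support, ∃ j, h * (y j)⁻¹ ∈ H) :
    (Fintype.card K : ℝ) - kerDimM (pcs H y A) ≤ Fintype.card J * (Fintype.card K - kerDimM A) := by
  classical
  set T : Finset G := Finset.univ.biUnion (fun k : K => Finset.univ.biUnion fun l : L =>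
    (A k l).support) with hTd
  have hT : ∀ k l, (A k l).support ⊆ T := by
    intro k l h hh
    rw [hTd, Finset.mem_biUnion]
    refine ⟨k, Finset.mem_univ _, ?_⟩
    rw [Finset.mem_biUnion]
    exact ⟨l, Finset.mem_univ _, hh⟩
  rw [rank_opM T A hT, rank_opM T (pcs H y A) (pcs_support H y A T hT)]
  refine vd_range_le (opM T (pcs H y A)) (opM T A) ?_
    (fun j => {x : G × K | x.1 * (y j)⁻¹ ∈ H})
    (fun j => {x : G × (L × J) | y x.2.2 * x.1 * (y j)⁻¹ ∈ H}) ?_ ?_ ?_
  · intro F u l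
    rw [opM_apply]
    refine Eq.trans ?_ (Finset.sum_congr rfl fun j _ => (opM_apply T (pcs H y A) F u (l, j)).symm)
    refine Eq.trans ?_ (Finset.sum_comm (s := T) (t := (Finset.univ : Finset J))
      (f := fun t j => ∑ k : K, pcs H y A k (l, j) t * F (t * u, k)))
    refine Finset.sum_congr rfl fun t _ => ?_
    refine Eq.trans ?_ (Finset.sum_comm (s := (Finset.univ : Finset K))
      (t := (Finset.univ : Finset J)) (f := fun k j => pcs H y A k (l, j) t * F (t * u, k)))
    refine Finset.sum_congr rfl fun k _ => ?_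
    rw [← Finset.sum_mul, pcs_sum H y hy A hs]
  · intro j F
    ext ⟨u, l, i⟩
    have key : ∀ t : G, t * (y i)⁻¹ ∈ H → (t * u * (y j)⁻¹ ∈ H ↔ y i * u * (y j)⁻¹ ∈ H) := by
      intro t ht
      have e : t * u * (y j)⁻¹ = (t * (y i)⁻¹) * (y i * u * (y j)⁻¹) := by group
      rw [e]
      exact H.mul_mem_cancel_left ht
    by_cases hz : y i * u * (y j)⁻¹ ∈ H
    · rw [cp_mem _ _ (show ((u, (l, i)) : G × (L × J)) ∈ _ from hz), opM_apply, opM_apply]
      refine Finset.sum_congr rfl fun t _ => Finset.sum_congr rfl fun k _ => ?_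
      by_cases ht : t * (y i)⁻¹ ∈ H
      · rw [cp_mem _ _ (show ((t * u, k) : G × K) ∈ {x : G × K | x.1 * (y j)⁻¹ ∈ H} from
          (key t ht).2 hz)]
      · rw [pcs_notMem _ _ _ _ _ _ ht, zero_mul, zero_mul]
    · rw [cp_notMem _ _ (show ¬ ((u, (l, i)) : G × (L × J)) ∈ _ from hz), opM_apply]
      refine Finset.sum_eq_zero fun t _ => Finset.sum_eq_zero fun k _ => ?_
      by_cases ht : t * (y i)⁻¹ ∈ H
      · rw [cp_notMem _ _ (show ¬ ((t * u, k) : G × K) ∈ {x : G × K | x.1 * (y j)⁻¹ ∈ H} from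
          fun h => hz ((key t ht).1 h)), mul_zero]
      · rw [pcs_notMem _ _ _ _ _ _ ht, zero_mul]
  · intro j l
    change y j * 1 * (y j)⁻¹ ∈ H
    rw [mul_one, mul_inv_cancel]
    exact H.one_mem
  · intro j u l j1 j2 h1 h2
    apply hy
    have h1' : y j1 * u * (y j)⁻¹ ∈ H := h1
    have h2' : y j2 * u * (y j)⁻¹ ∈ H := h2
    have h3 := H.mul_mem h1' (H.inv_mem h2')
    have e : y j1 * u * (y j)⁻¹ * (y j2 * u * (y j)⁻¹)⁻¹ = y j1 * (y j2)⁻¹ := by group
    rwa [e] at h3

end

section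
variable {G : Type u} {K : Type v} {L : Type w} [Group G] [Fintype K] [Fintype L]
  [DecidableEq K] [DecidableEq L]

/-- all square-summable row vectors which are killed by the parts of `A` in all right cosets -/
def pset (H : Subgroup G) (A : K → L → (G →₀ ℂ)) : Set (lp (fun _ : K × G => ℂ) 2) :=
  {x | ∀ (z : G) (j : L) (g : G), ∑ k : K, ∑ h ∈ (A k j).support, 
    Set.indicator {h : G | h * z⁻¹ ∈ H} (fun h => x (k, g * h⁻¹) * A k j h) h = 0}

theorem pset_eq {J : Type z} [Fintype J] [DecidableEq J] (H : Subgroup G) (y : J → G)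
    (A : K → L → (G →₀ ℂ)) (hs : ∀ k l, ∀ h ∈ (A k l).support, ∃ j, h * (y j)⁻¹ ∈ H) :
    pset H A = kernM (pcs H y A) := by
  classical
  have key : ∀ (x : lp (fun _ : K × G => ℂ) 2) (j : J) (l : L) (g : G) (k : K),
      ∑ h ∈ (pcs H y A k (l, j)).support, x (k, g * h⁻¹) * pcs H y A k (l, j) h
        = ∑ h ∈ (A k l).support, Set.indicator {h : G | h * (y j)⁻¹ ∈ H}
          (fun h => x (k, g * h⁻¹) * A k l h) h := by
    intro x j l g k
    rw [Finset.sum_subset (s₂ := (A k l).support)]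
    · refine Finset.sum_congr rfl fun h _ => ?_
      by_cases hh : h * (y j)⁻¹ ∈ H
      · rw [pcs_mem _ _ _ _ _ _ hh, Set.indicator_of_mem (show h ∈ {h : G | h * (y j)⁻¹ ∈ H} from hh)]
      · rw [pcs_notMem _ _ _ _ _ _ hh,
          Set.indicator_of_notMem (show ¬ h ∈ {h : G | h * (y j)⁻¹ ∈ H} from hh), mul_zero]
    · intro h hh
      rw [Finsupp.mem_support_iff] at hh ⊢
      intro h0
      apply hh
      by_cases hj : h * (y j)⁻¹ ∈ H
      · rw [pcs_mem _ _ _ _ _ _ hj, h0]
      · exact pcs_notMem _ _ _ _ _ _ hj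
    · intro h _ hh
      rw [Finsupp.notMem_support_iff.1 hh, mul_zero]
  ext x
  constructor
  · intro hx lj g
    obtain ⟨l, j⟩ := lj
    rw [Finset.sum_congr rfl fun k _ => key x j l g k]
    exact hx (y j) l g
  · intro hx z l g
    by_cases hz : ∃ j, y j * z⁻¹ ∈ H
    · obtain ⟨j, hj⟩ := hz
      have h1 := hx (l, j) g
      rw [Finset.sum_congr rfl fun k _ => key x j l g k] at h1
      rw [← h1]
      refine Finset.sum_congr rfl fun k _ => Finset.sum_congr rfl fun h _ => ?_
      have e : {h : G | h * z⁻¹ ∈ H} = {h : G | h * (y j)⁻¹ ∈ H} := by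
        ext t
        have e1 : t * z⁻¹ = t * (y j)⁻¹ * (y j * z⁻¹) := by group
        change t * z⁻¹ ∈ H ↔ t * (y j)⁻¹ ∈ H
        rw [e1]
        exact H.mul_mem_cancel_right hj
      rw [e]
    · refine Finset.sum_eq_zero fun k _ => Finset.sum_eq_zero fun h hh => ?_
      apply Set.indicator_of_notMem
      intro hh'
      obtain ⟨j, hj⟩ := hs k l h hh
      apply hz
      refine ⟨j, ?_⟩
      have h3 := H.mul_mem (H.inv_mem hj) hh'
      have e : (h * (y j)⁻¹)⁻¹ * (h * z⁻¹) = y j * z⁻¹ := by group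
      rwa [e] at h3

open Classical in
/-- the dimension of a closed invariant set of row vectors -/
noncomputable def dimS (V : Set (lp (fun _ : K × G => ℂ) 2)) : ℝ :=
  ∑ i : K, (1 - Metric.infDist
    (lp.single (E := fun _ : K × G => ℂ) 2 (i, (1 : G)) (1 : ℂ)) V ^ 2)

theorem kerDimM_dimS (A : K → L → (G →₀ ℂ)) : kerDimM A = dimS (kernM A) := rfl

theorem kerDimM_le (A : K → L → (G →₀ ℂ)) : kerDimM A ≤ Fintype.card K := by
  classical
  unfold kerDimM
  refine (Finset.sum_le_sum (g := fun _ => (1 : ℝ)) fun i _ => ?_).trans ?_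
  · have : 0 ≤ Metric.infDist
      (lp.single (E := fun _ : K × G => ℂ) 2 (i, (1 : G)) (1 : ℂ)) (kernM A) ^ 2 := sq_nonneg _
    linarith
  · simp

/-- The estimate with an arbitrary finite set of representatives. -/
theorem pset_rank (H : Subgroup G) (Y : Finset G) (A : K → L → (G →₀ ℂ))
    (hs : ∀ k l, ∀ h ∈ (A k l).support, ∃ y ∈ Y, h * y⁻¹ ∈ H) :
    (Fintype.card K : ℝ) - dimS (pset H A) ≤ Y.card * (Fintype.card K - dimS (kernM A)) := by
  classical
  set q : G → Quotient (QuotientGroup.rightRel H) := Quotient.mk (QuotientGroup.rightRel H) with hq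
  set J := {c // c ∈ Y.image q} with hJ
  set y : J → G := fun c => Quotient.out c.1 with hyd
  have hmk : ∀ a b : G, q a = q b ↔ b * a⁻¹ ∈ H := by
    intro a b
    rw [hq, Quotient.eq]
    exact QuotientGroup.rightRel_apply
  have hy : ∀ i j : J, y i * (y j)⁻¹ ∈ H → i = j := by
    intro i j hij
    have h1 : q (y j) = q (y i) := (hmk _ _).2 hij
    have h2 : ∀ c : J, q (y c) = c.1 := fun c => Quotient.out_eq c.1
    rw [h2, h2] at h1
    exact (Subtype.ext h1).symm
  have hs' : ∀ k l, ∀ h ∈ (A k l).support, ∃ j : J, h * (y j)⁻¹ ∈ H := by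
    intro k l h hh
    obtain ⟨z, hz, hzh⟩ := hs k l h hh
    refine ⟨⟨q z, Finset.mem_image_of_mem q hz⟩, ?_⟩
    have h1 : q (y ⟨q z, Finset.mem_image_of_mem q hz⟩) = q z := Quotient.out_eq _
    have h2 : q z = q h := (hmk _ _).2 hzh
    exact (hmk _ _).1 (h1.trans h2)
  have hmain := pcs_rank H y hy A hs'
  rw [kerDimM_dimS, kerDimM_dimS, ← pset_eq H y A hs'] at hmain
  refine hmain.trans ?_
  have hc : (Fintype.card J : ℝ) ≤ Y.card := by
    have h1 : Fintype.card J = (Y.image q).card := Fintype.card_coe _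
    rw [h1]
    exact_mod_cast Finset.card_image_le
  have h0 : (0 : ℝ) ≤ Fintype.card K - dimS (kernM A) := by
    have := kerDimM_le A
    rw [kerDimM_dimS] at this
    linarith
  exact mul_le_mul_of_nonneg_right hc h0

end

end Pool.Agent.K3h80.CR
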