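import Pool.Agent.W649.ZL.Mat

set_option autoImplicit false
set_option linter.unusedSectionVars false
set_option linter.unusedSimpArgs false

open scoped InnerProductSpace InnerProduct ENNReal

/-! The dimension of the range of an operator that is split along disjoint coordinate sets. -/

namespace Pool.Agent.K3h80.CR

open Pool.Agent.W649.ZL
open Pool.Agent.H919R3.L2 (IsReg exists_reg reg_tendsto)

universe u v w z

section cp
variable {X : Type*}

theorem memlp_cp (Z : Set X) (f : lp (fun _ : X => ℂ) 2) :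
    Memℓp (fun x => Z.indicator (fun y => f y) x) 2 := by
  rw [memlp_two_iff]
  have h := (memlp_two_iff _).1 f.2
  refine h.of_nonneg_of_le (fun x => by positivity) (fun x => ?_)
  by_cases hx : x ∈ Z
  · rw [Set.indicator_of_mem hx]
  · rw [Set.indicator_of_notMem hx]
    simp

/-- The coordinate projection to `Z`. -/
noncomputable def cp (Z : Set X) (f : lp (fun _ : X => ℂ) 2) : lp (fun _ : X => ℂ) 2 :=
  ⟨fun x => Z.indicator (fun y => f y) x, memlp_cp Z f⟩

theorem cp_apply (Z : Set X) (f : lp (fun _ : X => ℂ) 2) (x : X) :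
    cp Z f x = Z.indicator (fun y => f y) x := rfl

theorem cp_mem (Z : Set X) (f : lp (fun _ : X => ℂ) 2) {x : X} (hx : x ∈ Z) :
    cp Z f x = f x := by rw [cp_apply, Set.indicator_of_mem hx]

theorem cp_notMem (Z : Set X) (f : lp (fun _ : X => ℂ) 2) {x : X} (hx : x ∉ Z) :
    cp Z f x = 0 := by rw [cp_apply, Set.indicator_of_notMem hx]

theorem cp_add (Z : Set X) (f g : lp (fun _ : X => ℂ) 2) : cp Z (f + g) = cp Z f + cp Z g := by
  ext x
  change cp Z (f + g) x = cp Z f x + cp Z g x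
  by_cases hx : x ∈ Z
  · rw [cp_mem _ _ hx, cp_mem _ _ hx, cp_mem _ _ hx]; rfl
  · rw [cp_notMem _ _ hx, cp_notMem _ _ hx, cp_notMem _ _ hx, add_zero]

theorem cp_smul (Z : Set X) (c : ℂ) (f : lp (fun _ : X => ℂ) 2) : cp Z (c • f) = c • cp Z f := by
  ext x
  change cp Z (c • f) x = c • cp Z f x
  by_cases hx : x ∈ Z
  · rw [cp_mem _ _ hx, cp_mem _ _ hx]; rfl
  · rw [cp_notMem _ _ hx, cp_notMem _ _ hx, smul_zero]

theorem inner_cp (Z : Set X) (f g : lp (fun _ : X => ℂ) 2) : ⟪cp Z f, g⟫_ℂ = ⟪f, cp Z g⟫_ℂ := by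
  rw [lp.inner_eq_tsum, lp.inner_eq_tsum]
  refine tsum_congr fun x => ?_
  by_cases hx : x ∈ Z
  · rw [cp_mem _ _ hx, cp_mem _ _ hx]
  · rw [cp_notMem _ _ hx, cp_notMem _ _ hx, inner_zero_left, inner_zero_right]

end cp

section
variable {G : Type u} {K : Type v} {L : Type w} {J : Type z} [Group G]

theorem cp_dl {I : Type*} (Z : Set (G × I)) (x : G × I) (hx : x ∈ Z) : cp Z (dl x) = dl x := by
  ext y
  by_cases hy : y ∈ Z
  · rw [cp_mem _ _ hy]
  · rw [cp_notMem _ _ hy, dl_apply_ne]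
    intro h
    rw [h] at hy
    exact hy hx

theorem sum_single_norm [Fintype J] (h : J → ℂ) (hh : ∀ i j, h i ≠ 0 → h j ≠ 0 → i = j) :
    ‖∑ j, h j‖ ^ 2 = ∑ j, ‖h j‖ ^ 2 := by
  classical
  by_cases h0 : ∃ j, h j ≠ 0
  · obtain ⟨j0, hj0⟩ := h0
    have hz : ∀ j, j ≠ j0 → h j = 0 := by
      intro j hj
      by_contra hne
      exact hj (hh j j0 hne hj0)
    rw [Finset.sum_eq_single j0 (fun j _ hj => hz j hj) (fun h => absurd (Finset.mem_univ _) h),
      Finset.sum_eq_single j0 (fun j _ hj => by rw [hz j hj]; simp)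
        (fun h => absurd (Finset.mem_univ _) h)]
  · push Not at h0
    rw [Finset.sum_eq_zero (fun j _ => h0 j), Finset.sum_eq_zero (fun j _ => by rw [h0 j]; simp)]
    simp

theorem norm_sq_prod [Fintype J] (h : EE G (L × J)) :
    ‖h‖ ^ 2 = ∑' x : G × L, ∑ j : J, ‖h (x.1, (x.2, j))‖ ^ 2 := by
  rw [norm_sq_tsum]
  have hs := (memlp_two_iff _).1 h.2
  rw [← Equiv.tsum_eq (Equiv.prodAssoc G L J)]
  have h2 : Summable (fun c : (G × L) × J => ‖h ((Equiv.prodAssoc G L J) c)‖ ^ 2) :=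
    (Equiv.summable_iff (Equiv.prodAssoc G L J)).2 hs
  rw [Summable.tsum_prod h2]
  refine tsum_congr fun x => ?_
  rw [tsum_fintype]
  rfl

/-- If the values of `h` at `(u, (l, j))`, `j ∈ J`, are all zero but one, then summing them does
not increase the norm. -/
theorem norm_sum_le [Fintype J] (h : EE G (L × J)) (k : EE G L)
    (hk : ∀ u l, k (u, l) = ∑ j, h (u, (l, j)))
    (h1 : ∀ u l i j, h (u, (l, i)) ≠ 0 → h (u, (l, j)) ≠ 0 → i = j) : ‖k‖ ^ 2 = ‖h‖ ^ 2 := by
  rw [norm_sq_prod, norm_sq_tsum]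
  refine tsum_congr fun x => ?_
  rw [← sum_single_norm _ (h1 x.1 x.2), ← hk]

variable [Fintype J]

theorem piece_le (P : EE G K →L[ℂ] EE G (L × J)) (T : EE G K →L[ℂ] EE G L)
    (hT : ∀ F u l, T F (u, l) = ∑ j, P F (u, (l, j)))
    (j : J) (C : Set (G × K)) (Z : Set (G × (L × J)))
    (hPC : ∀ F, P (cp C F) = cp Z (P F))
    (hZ1 : ∀ l, ((1 : G), (l, j)) ∈ Z)
    (hZd : ∀ u l j1 j2, (u, (l, j1)) ∈ Z → (u, (l, j2)) ∈ Z → j1 = j2) (l : L) :
    ‖(LinearMap.range (P : EE G K →ₗ[ℂ] EE G (L × J))).topologicalClosure.starProjection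
        (dl ((1 : G), (l, j)))‖ ^ 2
      ≤ ‖(LinearMap.range (T : EE G K →ₗ[ℂ] EE G L)).topologicalClosure.starProjection
        (dl ((1 : G), l))‖ ^ 2 := by
  classical
  set δ : EE G (L × J) := dl ((1 : G), (l, j)) with hδ
  set δ' : EE G L := dl ((1 : G), l) with hδ'
  set pP := (LinearMap.range (P : EE G K →ₗ[ℂ] EE G (L × J))).topologicalClosure with hpP
  set pT := (LinearMap.range (T : EE G K →ₗ[ℂ] EE G L)).topologicalClosure with hpT
  refine le_of_forall_pos_le_add fun ρ hρ => ?_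
  obtain ⟨e0, he0, hlim⟩ := reg_tendsto P pP hpP δ ρ hρ
  obtain ⟨R, hR⟩ := exists_reg P (e0 / 2) (by positivity)
  have hclose := hlim (e0 / 2) R (by positivity) (by linarith) hR
  have hc := close_aux pP (l, j) _ ρ hclose
  set P' := ContinuousLinearMap.adjoint P with hP'
  -- commutation
  have hadj : ∀ g, P' (cp Z g) = cp C (P' g) := by
    intro g
    apply ext_inner_right ℂ
    intro F
    rw [ContinuousLinearMap.adjoint_inner_left, inner_cp, ← hPC,
      ← ContinuousLinearMap.adjoint_inner_left, ← inner_cp]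
  have hRc : ∀ x, R (cp C x) = cp C (R x) := by
    intro x
    refine hR.comm (cp C) (cp_add C) (cp_smul C) ?_ x
    intro y
    rw [hPC]
    exact hadj _
  set w := R (P' δ) with hw
  have hδZ : cp Z δ = δ := cp_dl Z _ (hZ1 l)
  have hwC : cp C w = w := by
    rw [hw, ← hRc, ← hadj, hδZ]
  have hPw : cp Z (P w) = P w := by rw [← hPC, hwC]
  have hsupp : ∀ x, P w x ≠ 0 → x ∈ Z := by
    intro x hx
    by_contra hne
    apply hx
    rw [← hPw]
    exact cp_notMem _ _ hne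
  -- norms
  have hnorm : ‖T w‖ ^ 2 = ‖P w‖ ^ 2 := norm_sum_le (P w) (T w) (hT w)
    (fun u l i j hi hj => hZd u l i j (hsupp _ hi) (hsupp _ hj))
  have hval : T w ((1 : G), l) = P w ((1 : G), (l, j)) := by
    rw [hT, Finset.sum_eq_single j]
    · intro i _ hi
      by_contra hne
      exact hi (hZd 1 l i j (hsupp _ hne) (hZ1 l))
    · intro h; exact absurd (Finset.mem_univ _) h
  -- the number τ
  set τ : ℝ := (⟪δ, P w⟫_ℂ).re with hτ
  have hτ1 : ‖P w‖ ^ 2 ≤ τ := by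
    have h1 := hR.inner_self (P' δ)
    rw [← hw] at h1
    have h2 : ⟪w, P' δ⟫_ℂ = ⟪P w, δ⟫_ℂ := ContinuousLinearMap.adjoint_inner_right _ _ _
    have h3 : τ = (⟪P w, δ⟫_ℂ).re := by
      rw [hτ, ← inner_conj_symm, Complex.conj_re]
    rw [h3, ← h2, h1, Complex.ofReal_re]
    have : 0 ≤ e0 / 2 * ‖w‖ ^ 2 := by positivity
    linarith
  have hτ2 : τ = (⟪pT.starProjection δ', T w⟫_ℂ).re := by
    have h1 : ⟪δ' - pT.starProjection δ', T w⟫_ℂ = 0 :=
      Submodule.starProjection_inner_eq_zero _ _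
        (Submodule.le_topologicalClosure _ ⟨w, rfl⟩)
    rw [inner_sub_left, sub_eq_zero] at h1
    rw [← h1, hτ, hδ, hδ', inner_dl_left, inner_dl_left, hval]
  have hτ3 : τ ≤ ‖pT.starProjection δ'‖ * ‖T w‖ := by
    rw [hτ2]
    exact (Complex.re_le_norm _).trans (norm_inner_le_norm _ _)
  have hτ4 : τ ≤ ‖pT.starProjection δ'‖ ^ 2 := by
    have h1 : ‖pT.starProjection δ'‖ * ‖T w‖ ≤ (‖pT.starProjection δ'‖ ^ 2 + ‖T w‖ ^ 2) / 2 := by
      nlinarith [sq_nonneg (‖pT.starProjection δ'‖ - ‖T w‖)]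
    rw [hnorm] at h1
    linarith
  have h5 := (abs_le.1 hc).1
  have h6 : (⟪(dl ((1 : G), (l, j)) : EE G (L × J)), P w⟫_ℂ).re = τ := rfl
  linarith [h5, h6]

variable [Fintype K] [Fintype L]

/-- The main estimate: the dimension of the range of the split operator is at most the number of
the pieces times that of the operator. -/
theorem vd_range_le (P : EE G K →L[ℂ] EE G (L × J)) (T : EE G K →L[ℂ] EE G L)
    (hT : ∀ F u l, T F (u, l) = ∑ j, P F (u, (l, j)))
    (C : J → Set (G × K)) (Z : J → Set (G × (L × J)))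
    (hPC : ∀ j F, P (cp (C j) F) = cp (Z j) (P F))
    (hZ1 : ∀ j l, ((1 : G), (l, j)) ∈ Z j)
    (hZd : ∀ j u l j1 j2, (u, (l, j1)) ∈ Z j → (u, (l, j2)) ∈ Z j → j1 = j2) :
    vd (LinearMap.range (P : EE G K →ₗ[ℂ] EE G (L × J)))
      ≤ Fintype.card J * vd (LinearMap.range (T : EE G K →ₗ[ℂ] EE G L)) := by
  unfold vd
  rw [Fintype.sum_prod_type, Finset.mul_sum]
  refine Finset.sum_le_sum fun l _ => ?_
  refine (Finset.sum_le_sum fun j _ =>
    piece_le P T hT j (C j) (Z j) (hPC j) (hZ1 j) (hZd j) l).trans ?_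
  rw [Finset.sum_const, Finset.card_univ, nsmul_eq_mul]

end

end Pool.Agent.K3h80.CR
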